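import Pool.Agent.Lib.MP_8607b9_lc.Hardness
import Pool.Agent.Lib.MP_8607b9_lc.Upper

/-!
# MP_8607b9_lc: Node Blocking on acyclic digraphs is PSPACE-complete

The definitions used in the statement are in `Pool.Agent.Lib.MP_0f8b55_lc.Defs` (decision problems,
reductions, codes) and `Pool.Agent.Lib.MP_8607b9_lc.Defs` (`TQBF` and `NBDAG`).

Hardness: the proof reduces the truth of closed prenex formulas with matrix in conjunctive normal
form to Node Blocking on acyclic digraphs, in three steps, all computable in polynomial time.

* `negF`: the formula is negated, and the negation brought into the same form.
* `mbOf`: the formula becomes a Maker-Breaker game, in which Breaker is the existential player. The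
  order of the moves is enforced by spine elements which belong to all winning sets of the later
  variables; if Maker deviates from the order, Breaker takes the current spine element.
* `nbOf`: the Maker-Breaker game becomes a position of Node Blocking. The tokens at `lam x` and
  `rho x` compete for the vertex `mid x`. If Maker owns a winning set `e`, his tokens at `mid x`,
  `x ∈ e`, plug the vertices `que x`, the only vertices through which tokens of Right reach the
  gates of `e`; so a gate of `e` stays vacant until the long train of Left, on its own path, has
  arrived, and the train wins the game by the additional moves. If Breaker owns an element of every
  winning set, Right fills all gates before the train arrives, and wins by the spare moves of his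
  token on a path of its own.

Membership: in a turn of a player all edges are offered to him, one after the other, and one bit
says whether he moves along the edge; the positions are encoded by bits quantified existentially
after all moves, and the length of a play is bounded by a potential.
-/

open Pool.Agent.Lib.MP_8607b9_lc Pool.Agent.Lib.MP_0f8b55_lc in
/-- `TQBF` and `NB-DAG` are reducible to each other in polynomial time. -/
theorem Pool.Agent.Results.MP_8607b9_lc.NodeBlockingDAG.result :
    Reduces TQBF NBDAG ∧ Reduces NBDAG TQBF :=
  ⟨tqbf_reduces_nbdag, nbdag_reduces⟩
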